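import Mathlib

/-! The measure theoretic part: a cover for the averaged semimetric colours most group elements
so that equally coloured elements act almost alike. -/

namespace Pool.Agent.MP_a6e297_an

open MeasureTheory Set

variable {X : Type*} [MeasurableSpace X] {μ : Measure X}

/-- Real-valued form of a cover by `k` small pieces and one piece of small measure. -/
def Cover (μ : Measure X) (ρ : X → X → ℝ) (ε : ℝ) (k : ℕ) : Prop :=
  ∃ Y : Fin (k + 1) → Set X, (∀ i, MeasurableSet (Y i)) ∧ (∀ x, ∃ i, x ∈ Y i) ∧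
    μ.real (Y 0) < ε ∧ ∀ i : Fin k, ∀ x ∈ Y i.succ, ∀ y ∈ Y i.succ, ρ x y < ε

theorem exists_balls {ρ : X → X → ℝ} (hs : ∀ x y, ρ x y = ρ y x)
    (ht : ∀ x y z, ρ x z ≤ ρ x y + ρ y z) {s : ℝ} {M : ℕ} (hM : 0 < M) (h : Cover μ ρ s M) :
    ∃ (Y₀ : Set X) (B : Fin M → Set X) (lab : X → Fin M), MeasurableSet Y₀ ∧ μ.real Y₀ < s ∧
      (∀ c, MeasurableSet (B c)) ∧ (∀ c, ∀ y ∈ B c, ∀ y' ∈ B c, ρ y y' < 5 * s) ∧
      ∀ z, z ∉ Y₀ → ∀ y, y ∉ Y₀ → ρ z y < s → y ∈ B (lab z) := by
  classical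
  obtain ⟨Y, hY, hcov, h0, hd⟩ := h
  have hlab : ∀ z, ∃ c : Fin M, z ∉ Y 0 → z ∈ Y c.succ := by
    intro z
    obtain ⟨i, hi⟩ := hcov z
    rcases Fin.eq_zero_or_eq_succ i with rfl | ⟨c, rfl⟩
    · exact ⟨⟨0, hM⟩, fun h => absurd hi h⟩
    · exact ⟨c, fun _ => hi⟩
  choose lab hlab using hlab
  refine ⟨Y 0, fun c => ⋃ (j : Fin M) (_ : ∃ u ∈ Y c.succ, ∃ u' ∈ Y j.succ, ρ u u' < s),
    Y j.succ, lab, hY 0, h0, ?_, ?_, ?_⟩
  · intro c
    exact MeasurableSet.iUnion fun j => MeasurableSet.iUnion fun _ => hY _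
  · intro c y hy y' hy'
    simp only [mem_iUnion] at hy hy'
    obtain ⟨j, ⟨u, hu, u', hu', huu⟩, hy⟩ := hy
    obtain ⟨j', ⟨v, hv, v', hv', hvv⟩, hy'⟩ := hy'
    have a1 := hd j y hy u' hu'
    have a2 := hd c u hu v hv
    have a3 := hd j' v' hv' y' hy'
    have a4 := ht y u' y'
    have a5 := ht u' u y'
    have a6 := ht u v y'
    have a7 := ht v v' y'
    have a8 := hs u' u
    linarith
  · intro z hz y hy hzy
    simp only [mem_iUnion]
    exact ⟨lab y, ⟨z, hlab z hz, y, hlab y hy, hzy⟩, hlab y hy⟩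

theorem sum_measureReal_inter [IsFiniteMeasure μ] {ι : Type*} (F : Finset ι) (E : ι → Set X)
    (hE : ∀ g, MeasurableSet (E g)) (P : Set X) :
    ∑ g ∈ F, μ.real (P ∩ E g) =
      ∫ x in P, ∑ g ∈ F, (E g).indicator (1 : X → ℝ) x ∂μ := by
  rw [integral_finsetSum]
  · refine Finset.sum_congr rfl fun g _ => ?_
    rw [integral_indicator_one (hE g), measureReal_restrict_apply (hE g), inter_comm]
  · intro g _
    exact (integrable_const (1 : ℝ)).indicator (hE g)

omit [MeasurableSpace X] in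
theorem sum_indicator_eq_card {ι : Type*} (F : Finset ι) (E : ι → Set X) (x : X)
    [DecidablePred fun g => x ∈ E g] :
    ∑ g ∈ F, (E g).indicator (1 : X → ℝ) x = ((F.filter fun g => x ∈ E g).card : ℝ) := by
  rw [Finset.card_filter]
  push_cast
  refine Finset.sum_congr rfl fun g _ => ?_
  by_cases h : x ∈ E g <;> simp [h]

theorem integrable_sum_indicator [IsFiniteMeasure μ] {ι : Type*} (F : Finset ι) (E : ι → Set X)
    (hE : ∀ g, MeasurableSet (E g)) :
    Integrable (fun x => ∑ g ∈ F, (E g).indicator (1 : X → ℝ) x) μ :=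
  integrable_finsetSum _ fun g _ => (integrable_const (1 : ℝ)).indicator (hE g)

open Classical in
theorem sum_measureReal_le [IsFiniteMeasure μ] {ι : Type*} (F : Finset ι) (E : ι → Set X)
    (hE : ∀ g, MeasurableSet (E g)) {P : Set X} (hP : MeasurableSet P) {m : ℝ}
    (h : ∀ x ∈ P, ((F.filter fun g => x ∈ E g).card : ℝ) ≤ m) :
    ∑ g ∈ F, μ.real (P ∩ E g) ≤ m * μ.real P := by
  rw [sum_measureReal_inter F E hE]
  calc ∫ x in P, ∑ g ∈ F, (E g).indicator (1 : X → ℝ) x ∂μ ≤ ∫ _ in P, m ∂μ := by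
        refine setIntegral_mono_on (integrable_sum_indicator F E hE).integrableOn
          (integrable_const m).integrableOn hP fun x hx => ?_
        rw [sum_indicator_eq_card]
        exact h x hx
    _ = m * μ.real P := by simp [mul_comm]

open Classical in
theorem le_sum_measureReal [IsFiniteMeasure μ] {ι : Type*} (F : Finset ι) (E : ι → Set X)
    (hE : ∀ g, MeasurableSet (E g)) {P : Set X} (hP : MeasurableSet P) {m : ℝ}
    (h : ∀ x ∈ P, m ≤ ((F.filter fun g => x ∈ E g).card : ℝ)) :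
    m * μ.real P ≤ ∑ g ∈ F, μ.real (P ∩ E g) := by
  rw [sum_measureReal_inter F E hE]
  calc m * μ.real P = ∫ _ in P, m ∂μ := by simp [mul_comm]
    _ ≤ ∫ x in P, ∑ g ∈ F, (E g).indicator (1 : X → ℝ) x ∂μ := by
        refine setIntegral_mono_on (integrable_const m).integrableOn
          (integrable_sum_indicator F E hE).integrableOn hP fun x hx => ?_
        rw [sum_indicator_eq_card]
        exact h x hx

theorem card_filter_mul_le {ι : Type*} (F : Finset ι) (u : ι → ℝ) (hu : ∀ g, 0 ≤ u g) (c : ℝ)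
    [DecidablePred fun g => c ≤ u g] :
    ((F.filter fun g => c ≤ u g).card : ℝ) * c ≤ ∑ g ∈ F, u g := by
  calc ((F.filter fun g => c ≤ u g).card : ℝ) * c = ∑ _g ∈ F.filter fun g => c ≤ u g, c := by
        simp
    _ ≤ ∑ g ∈ F.filter fun g => c ≤ u g, u g :=
        Finset.sum_le_sum fun g hg => (Finset.mem_filter.1 hg).2
    _ ≤ ∑ g ∈ F, u g :=
        Finset.sum_le_sum_of_subset_of_nonneg (Finset.filter_subset _ _) fun g _ _ => hu g

theorem exists_colouring {G : Type*} [Group G] [MulAction G X] [IsProbabilityMeasure μ]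
    (hpres : ∀ g : G, MeasurePreserving (fun x : X => g • x) μ μ)
    {ρ : X → X → ℝ} (h0 : ∀ x y, 0 ≤ ρ x y) (hs : ∀ x y, ρ x y = ρ y x)
    (ht : ∀ x y z, ρ x z ≤ ρ x y + ρ y z) {s : ℝ} (hs0 : 0 < s) (hs1 : s ≤ 1) {M : ℕ}
    (hM : 0 < M) (hcov : Cover μ ρ s M) (F : Finset G) (hF : F.Nonempty) {K : ℕ}
    (hK : Cover μ (fun x y => (∑ g ∈ F, ρ (g • x) (g • y)) / F.card) (s ^ 2) K) :
    ∃ (col : G → Fin K → Fin M) (Bad : Finset G), 16 * Bad.card ≤ F.card ∧
      ∀ g ∈ F, g ∉ Bad → ∀ h ∈ F, h ∉ Bad → col g = col h →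
        μ.real {x | 5 * s ≤ ρ (g • x) (h • x)} ≤ 97 * s := by
  classical
  obtain ⟨Y₀, B, lab, hY₀, hY₀s, hB, hBd, hlab⟩ := exists_balls hs ht hM hcov
  obtain ⟨Z, hZ, hZcov, hZ0, hZd⟩ := hK
  have hFc : (0 : ℝ) < F.card := by exact_mod_cast hF.card_pos
  have hne : Nonempty X := nonempty_of_isProbabilityMeasure μ
  let P : Fin K → Set X := fun i => Z i.succ \ ⋃ (j : Fin K) (_ : j < i), Z j.succ
  have hP : ∀ i, MeasurableSet (P i) := fun i =>
    (hZ _).diff (MeasurableSet.iUnion fun j => MeasurableSet.iUnion fun _ => hZ _)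
  have hPdis : Pairwise (Function.onFun Disjoint P) := by
    intro i j hij
    rw [Function.onFun, disjoint_left]
    intro x hi hj
    rcases lt_or_gt_of_ne hij with h | h
    · exact hj.2 (mem_iUnion₂.2 ⟨i, h, hi.1⟩)
    · exact hi.2 (mem_iUnion₂.2 ⟨j, h, hj.1⟩)
  have hPcov : ∀ x, x ∉ Z 0 → ∃ i, x ∈ P i := by
    intro x hx
    obtain ⟨i, hi⟩ := hZcov x
    rcases Fin.eq_zero_or_eq_succ i with rfl | ⟨c, rfl⟩
    · exact absurd hi hx
    · obtain ⟨m, hm, hmin⟩ := (wellFounded_lt (α := Fin K)).has_min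
        {j : Fin K | x ∈ Z j.succ} ⟨c, hi⟩
      refine ⟨m, hm, fun h => ?_⟩
      obtain ⟨j, hj, hxj⟩ := mem_iUnion₂.1 h
      exact hmin j hxj hj
  have hPsum : ∀ E : Set X, MeasurableSet E → ∑ i, μ.real (P i ∩ E) ≤ μ.real E := by
    intro E hE
    rw [← measureReal_iUnion_fintype]
    · exact measureReal_mono (iUnion_subset fun i => inter_subset_right)
    · intro i j hij
      exact (hPdis hij).mono inter_subset_left inter_subset_left
    · exact fun i => (hP i).inter hE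
  have hPsum1 : ∑ i, μ.real (P i) ≤ 1 := by
    simpa using hPsum univ MeasurableSet.univ
  let E₀ : G → Set X := fun g => (fun x => g • x) ⁻¹' Y₀
  have hE₀ : ∀ g, MeasurableSet (E₀ g) := fun g => (hpres g).measurable hY₀
  have hE₀m : ∀ g, μ.real (E₀ g) = μ.real Y₀ := fun g => by
    simp only [Measure.real, E₀, (hpres g).measure_preimage hY₀.nullMeasurableSet]
  let cnt : X → ℕ := fun x => (F.filter fun g => x ∈ E₀ g).card
  have hbase : ∀ i, ∃ b : X, ∀ x ∈ P i, b ∈ P i ∧ cnt b ≤ cnt x := by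
    intro i
    rcases (P i).eq_empty_or_nonempty with h | h
    · exact ⟨Classical.arbitrary X, fun x hx => by rw [h] at hx; exact absurd hx (notMem_empty x)⟩
    · exact ⟨Function.argminOn cnt (P i) h, fun x hx =>
        ⟨Function.argminOn_mem cnt (P i) h, Function.argminOn_le cnt (P i) hx⟩⟩
  choose b hb using hbase
  let D : Fin K → G → Set X := fun i g => ((fun x => g • x) ⁻¹' B (lab (g • b i)))ᶜ
  have hD : ∀ i g, MeasurableSet (D i g) := fun i g => ((hpres g).measurable (hB _)).compl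
  let err : G → ℝ := fun g => ∑ i, μ.real (P i ∩ D i g)
  have herr0 : ∀ g, 0 ≤ err g := fun g => Finset.sum_nonneg fun i _ => measureReal_nonneg
  have hcell : ∀ i, ∑ g ∈ F, μ.real (P i ∩ D i g) ≤
      2 * ∑ g ∈ F, μ.real (P i ∩ E₀ g) + s * F.card * μ.real (P i) := by
    intro i
    have h1 : (cnt (b i) : ℝ) * μ.real (P i) ≤ ∑ g ∈ F, μ.real (P i ∩ E₀ g) :=
      le_sum_measureReal F E₀ hE₀ (hP i) fun x hx => by exact_mod_cast (hb i x hx).2
    have h2 : ∑ g ∈ F, μ.real (P i ∩ (D i g \ E₀ g)) ≤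
        ((cnt (b i) : ℝ) + s * F.card) * μ.real (P i) := by
      refine sum_measureReal_le F (fun g => D i g \ E₀ g) (fun g => (hD i g).diff (hE₀ g))
        (hP i) fun x hx => ?_
      have hbi := (hb i x hx).1
      have hsum : ∑ g ∈ F, ρ (g • b i) (g • x) < s ^ 2 * F.card := by
        have := hZd i (b i) hbi.1 x hx.1
        rwa [div_lt_iff₀ hFc] at this
      have hmark := card_filter_mul_le F (fun g => ρ (g • b i) (g • x)) (fun g => h0 _ _) s
      have hfar : ((F.filter fun g => s ≤ ρ (g • b i) (g • x)).card : ℝ) ≤ s * F.card := by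
        have : ((F.filter fun g => s ≤ ρ (g • b i) (g • x)).card : ℝ) * s ≤ (s * F.card) * s := by
          nlinarith
        exact le_of_mul_le_mul_right this hs0
      have hsub : (F.filter fun g => x ∈ D i g \ E₀ g) ⊆
          (F.filter fun g => b i ∈ E₀ g) ∪ F.filter fun g => s ≤ ρ (g • b i) (g • x) := by
        intro g hg
        rw [Finset.mem_filter] at hg
        rw [Finset.mem_union, Finset.mem_filter, Finset.mem_filter]
        by_contra hcon
        push Not at hcon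
        exact hg.2.1 (hlab _ (hcon.1 hg.1) _ hg.2.2 (hcon.2 hg.1))
      have hcard := (Finset.card_le_card hsub).trans (Finset.card_union_le _ _)
      have hcard' : ((F.filter fun g => x ∈ D i g \ E₀ g).card : ℝ) ≤
          (cnt (b i) : ℝ) + ((F.filter fun g => s ≤ ρ (g • b i) (g • x)).card : ℝ) := by
        exact_mod_cast hcard
      convert! hcard'.trans (add_le_add le_rfl hfar)
    have h3 : ∑ g ∈ F, μ.real (P i ∩ D i g) ≤
        ∑ g ∈ F, μ.real (P i ∩ E₀ g) + ∑ g ∈ F, μ.real (P i ∩ (D i g \ E₀ g)) := by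
      rw [← Finset.sum_add_distrib]
      refine Finset.sum_le_sum fun g _ => ?_
      refine le_trans (measureReal_mono ?_) (measureReal_union_le _ _)
      rintro x ⟨hx1, hx2⟩
      by_cases hx : x ∈ E₀ g
      · exact Or.inl ⟨hx1, hx⟩
      · exact Or.inr ⟨hx1, hx2, hx⟩
    nlinarith
  have htotal : ∑ g ∈ F, err g ≤ 3 * s * F.card := by
    have e1 : ∑ g ∈ F, err g = ∑ i, ∑ g ∈ F, μ.real (P i ∩ D i g) := Finset.sum_comm
    have e2 : ∑ i, ∑ g ∈ F, μ.real (P i ∩ E₀ g) ≤ s * F.card := by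
      rw [Finset.sum_comm]
      calc ∑ g ∈ F, ∑ i, μ.real (P i ∩ E₀ g) ≤ ∑ _g ∈ F, s :=
            Finset.sum_le_sum fun g _ => (hPsum _ (hE₀ g)).trans ((hE₀m g).trans_le hY₀s.le)
        _ = s * F.card := by simp [mul_comm]
    have e3 : ∑ i, s * F.card * μ.real (P i) ≤ s * F.card := by
      rw [← Finset.mul_sum]
      exact mul_le_of_le_one_right (by positivity) hPsum1
    calc ∑ g ∈ F, err g = ∑ i, ∑ g ∈ F, μ.real (P i ∩ D i g) := e1
      _ ≤ ∑ i, (2 * ∑ g ∈ F, μ.real (P i ∩ E₀ g) + s * F.card * μ.real (P i)) :=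
          Finset.sum_le_sum fun i _ => hcell i
      _ = 2 * ∑ i, ∑ g ∈ F, μ.real (P i ∩ E₀ g) + ∑ i, s * F.card * μ.real (P i) := by
          rw [Finset.sum_add_distrib, Finset.mul_sum]
      _ ≤ 3 * s * F.card := by linarith
  refine ⟨fun g i => lab (g • b i), F.filter fun g => 48 * s ≤ err g, ?_, ?_⟩
  · have h1 := (card_filter_mul_le F err herr0 (48 * s)).trans htotal
    have h2 : (16 * ((F.filter fun g => 48 * s ≤ err g).card : ℝ)) * (3 * s) ≤
        F.card * (3 * s) := by linarith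
    have h3 := le_of_mul_le_mul_right h2 (by positivity)
    exact_mod_cast h3
  · intro g hg hgB h hh hhB hcol
    have hg' : err g < 48 * s := not_le.1 fun hc => hgB (Finset.mem_filter.2 ⟨hg, hc⟩)
    have hh' : err h < 48 * s := not_le.1 fun hc => hhB (Finset.mem_filter.2 ⟨hh, hc⟩)
    have hsub : {x | 5 * s ≤ ρ (g • x) (h • x)} ⊆
        Z 0 ∪ ((⋃ i, P i ∩ D i g) ∪ ⋃ i, P i ∩ D i h) := by
      intro x hx
      by_cases hx0 : x ∈ Z 0
      · exact Or.inl hx0
      obtain ⟨i, hi⟩ := hPcov x hx0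
      right
      by_contra hcon
      simp only [mem_union, mem_iUnion, not_or, not_exists] at hcon
      have k1 : g • x ∈ B (lab (g • b i)) := by
        by_contra hc
        exact hcon.1 i ⟨hi, hc⟩
      have k2 : h • x ∈ B (lab (h • b i)) := by
        by_contra hc
        exact hcon.2 i ⟨hi, hc⟩
      have k3 : lab (g • b i) = lab (h • b i) := congrFun hcol i
      rw [← k3] at k2
      exact absurd (hBd _ _ k1 _ k2) (not_lt.2 hx)
    have m1 := measureReal_mono (μ := μ) hsub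
    have m2 := measureReal_union_le (μ := μ) (Z 0) ((⋃ i, P i ∩ D i g) ∪ ⋃ i, P i ∩ D i h)
    have m3 := measureReal_union_le (μ := μ) (⋃ i, P i ∩ D i g) (⋃ i, P i ∩ D i h)
    have m4 : μ.real (⋃ i, P i ∩ D i g) ≤ err g := measureReal_iUnion_fintype_le _
    have m5 : μ.real (⋃ i, P i ∩ D i h) ≤ err h := measureReal_iUnion_fintype_le _
    have m6 : s ^ 2 ≤ s := by nlinarith
    linarith

end Pool.Agent.MP_a6e297_an
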