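import Mathlib

namespace Pool.Agent.MP_a6e297_an

open MeasureTheory Filter Topology
open scoped ENNReal NNReal

universe u

/-- The lamplighter group `A ≀ ℤ`: the finitely supported configurations inside Mathlib's
(unrestricted) regular wreath product, `ℤ` acting by shifting coordinates. -/
def Lamplighter (A : Type) [Group A] :
    Subgroup (RegularWreathProduct A (Multiplicative ℤ)) where
  carrier := {g | (Function.mulSupport g.left).Finite}
  one_mem' := by simp
  mul_mem' := fun {a b} ha hb =>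
    (ha.union (hb.preimage (mul_right_injective a.right⁻¹).injOn)).subset
      (Function.mulSupport_mul _ _)
  inv_mem' := fun {a} ha =>
    (ha.preimage (mul_right_injective a.right).injOn).subset fun x hx => by simpa using hx

/-- A (left) Folner sequence of nonempty finite sets. -/
def IsFolnerSeq {G : Type} [Group G] (F : ℕ → Finset G) : Prop :=
  (∀ n, (F n).Nonempty) ∧ ∀ g : G,
    Tendsto (fun n => ((symmDiff ((g * ·) '' (F n : Set G)) (F n : Set G)).ncard : ℝ) / (F n).card)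
      atTop (𝓝 0)

/-- The `ε`-entropy: `log₂` of the least `k ≥ 1` admitting a measurable cover
`X₀, X₁, …, X_k` with `μ X₀ < ε` and `diam X_i < ε`; infinite if there is no such `k`. -/
noncomputable def epsEntropy {X : Type u} [MeasurableSpace X] (μ : Measure X)
    (ρ : X → X → ℝ≥0) (ε : ℝ≥0) : ℝ≥0∞ :=
  ⨅ (k : ℕ) (_ : 0 < k) (_ : ∃ Y : Fin (k + 1) → Set X, (∀ i, MeasurableSet (Y i)) ∧
      (⋃ i, Y i) = Set.univ ∧ μ (Y 0) < ε ∧
      ∀ i : Fin k, (⨆ x ∈ Y i.succ, ⨆ y ∈ Y i.succ, (ρ x y : ℝ≥0∞)) < ε),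
    ENNReal.ofReal (Real.logb 2 k)

/-- A measurable, summable, admissible, generating semimetric. -/
def IsGoodSemimetric (G : Type) [Group G] {X : Type u} [MeasurableSpace X] [MulAction G X]
    (μ : Measure X) (ρ : X → X → ℝ≥0) : Prop :=
  AEMeasurable (fun p : X × X => ρ p.1 p.2) (μ.prod μ) ∧
  (∀ x y, ρ x y = ρ y x) ∧ (∀ x y z, ρ x z ≤ ρ x y + ρ y z) ∧
  Integrable (fun p : X × X => (ρ p.1 p.2 : ℝ)) (μ.prod μ) ∧
  (∀ ε : ℝ≥0, 0 < ε → epsEntropy μ ρ ε < ⊤) ∧
  ∃ S : Set X, (∀ᵐ x ∂μ, x ∈ S) ∧ ∀ x ∈ S, ∀ y ∈ S, x ≠ y → ∃ g : G, 0 < ρ (g • x) (g • y)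

/-- The order `Φ ≾ Ψ`. -/
def Precsim (Φ Ψ : ℕ → ℝ≥0 → ℝ≥0∞) : Prop :=
  ∀ ε : ℝ≥0, 0 < ε → ∃ δ : ℝ≥0, 0 < δ ∧ limsup (fun n => Φ n ε / Ψ n δ) atTop < ⊤

/-- `φ` bounds from below the scaling entropy along `F` of every essentially free
measure preserving action of `G` on a standard probability space. -/
def IsUniformLowerBound (G : Type) [Group G] (F : ℕ → Finset G) (φ : ℕ → ℝ≥0) : Prop :=
  ∀ (X : Type u) [MeasurableSpace X] [StandardBorelSpace X] (μ : Measure X)
    [IsProbabilityMeasure μ] [MulAction G X],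
    (∀ g : G, MeasurePreserving (fun x : X => g • x) μ μ) →
    (∀ g : G, g ≠ 1 → μ {x | g • x = x} = 0) →
    ∀ ρ : X → X → ℝ≥0, IsGoodSemimetric G μ ρ →
      Precsim (fun n _ => φ n)
        (fun n ε => epsEntropy μ (fun x y => (∑ g ∈ F n, ρ (g • x) (g • y)) / (F n).card) ε)

end Pool.Agent.MP_a6e297_an
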