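import Pool.Agent.MP_a6e297_an.Defs
import Pool.Agent.MP_a6e297_an.Colour

/-! A criterion for the scaling entropy growth gap. -/

namespace Pool.Agent.MP_a6e297_an

open MeasureTheory Set Filter Topology
open scoped ENNReal NNReal

universe u

open Classical in
/-- The number of elements of `F` pushed out of `F` by left multiplication with `s`. -/
noncomputable def outCard {G : Type*} [Group G] (F : Finset G) (s : G) : ℕ :=
  (F.filter fun g => s * g ∉ F).card

theorem outCard_le {G : Type*} [Group G] (F : Finset G) (s : G) :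
    outCard F s ≤ (symmDiff ((s * ·) '' (F : Set G)) (F : Set G)).ncard := by
  classical
  have hfin : (symmDiff ((s * ·) '' (F : Set G)) (F : Set G)).Finite :=
    ((F.finite_toSet.image _).union F.finite_toSet).subset symmDiff_subset_union
  rw [outCard, ← Set.ncard_coe_finset]
  refine Set.ncard_le_ncard_of_injOn (s * ·) ?_ (mul_right_injective s).injOn hfin
  intro g hg
  simp only [Finset.coe_filter, mem_ofPred_eq] at hg
  exact Or.inl ⟨⟨g, hg.1, rfl⟩, hg.2⟩

theorem IsFolnerSeq.tendsto_outCard {G : Type} [Group G] {F : ℕ → Finset G}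
    (hF : IsFolnerSeq F) (s : G) :
    Tendsto (fun n => (outCard (F n) s : ℝ) / (F n).card) atTop (𝓝 0) := by
  refine squeeze_zero (fun n => by positivity) (fun n => ?_) (hF.2 s)
  gcongr
  exact outCard_le _ _

theorem IsFolnerSeq.eventually_mul_lt {G : Type} [Group G] {F : ℕ → Finset G}
    (hF : IsFolnerSeq F) (s : G) (c : ℕ) :
    ∀ᶠ n in atTop, c * outCard (F n) s < (F n).card := by
  have h1 : Tendsto (fun n => (c : ℝ) * ((outCard (F n) s : ℝ) / (F n).card)) atTop (𝓝 0) := by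
    simpa using (hF.tendsto_outCard s).const_mul (c : ℝ)
  filter_upwards [h1.eventually (gt_mem_nhds one_pos)] with n hn
  have hc : (0 : ℝ) < (F n).card := by exact_mod_cast (hF.1 n).card_pos
  rw [← mul_div_assoc, div_lt_one hc] at hn
  exact_mod_cast hn

theorem card_fibre_le {G : Type*} [Group G] (π : G →* Multiplicative ℤ) {t : G}
    (ht : π t = Multiplicative.ofAdd 1) (F : Finset G) (k : Multiplicative ℤ) :
    (F.filter fun g => π g = k).card ≤ outCard F t := by
  classical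
  have hπ : ∀ (m : ℕ) (g : G), (π (t ^ m * g)).toAdd = m + (π g).toAdd := by
    intro m g
    rw [map_mul, map_pow, ht]
    simp
  have hex : ∀ g : G, ∃ m : ℕ, t ^ (m + 1) * g ∉ F := by
    intro g
    by_contra hcon
    push Not at hcon
    have hinj : Function.Injective fun m : ℕ => t ^ (m + 1) * g := by
      intro m m' h
      have := congrArg (fun x => (π x).toAdd) h
      simp only [hπ] at this
      omega
    exact Set.infinite_of_injective_forall_mem hinj hcon F.finite_toSet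
  unfold outCard
  refine Finset.card_le_card_of_injOn (fun g => t ^ Nat.find (hex g) * g) ?_ ?_
  · intro g hg
    simp only [Finset.coe_filter, mem_ofPred_eq] at hg ⊢
    constructor
    · rcases h : Nat.find (hex g) with _ | m
      · simpa using hg.1
      · have := Nat.find_min (hex g) (m := m) (by omega)
        simpa using this
    · have := Nat.find_spec (hex g)
      rwa [pow_succ', mul_assoc] at this
  · intro g hg g' hg' h
    simp only [Finset.coe_filter, mem_ofPred_eq] at hg hg'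
    have h1 := congrArg (fun x => (π x).toAdd) h
    simp only [hπ, hg.2, hg'.2] at h1
    have h2 : Nat.find (hex g) = Nat.find (hex g') := by omega
    simp only [h2] at h
    exact mul_left_cancel h

theorem cover_of_lt {X : Type u} [MeasurableSpace X] {μ : Measure X} [IsProbabilityMeasure μ]
    {ρ : X → X → ℝ≥0} {ε : ℝ≥0} {k : ℕ}
    (h : ∃ Y : Fin (k + 1) → Set X, (∀ i, MeasurableSet (Y i)) ∧
      (⋃ i, Y i) = Set.univ ∧ μ (Y 0) < ε ∧
      ∀ i : Fin k, (⨆ x ∈ Y i.succ, ⨆ y ∈ Y i.succ, (ρ x y : ℝ≥0∞)) < ε) :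
    Cover μ (fun x y => (ρ x y : ℝ)) ε k := by
  obtain ⟨Y, h1, h2, h3, h4⟩ := h
  refine ⟨Y, h1, fun x => mem_iUnion.1 (h2 ▸ mem_univ x), ?_, fun i x hx y hy => ?_⟩
  · have := (ENNReal.toReal_lt_toReal (measure_ne_top μ _) ENNReal.coe_ne_top).2 h3
    simpa [Measure.real] using this
  · have h5 : (ρ x y : ℝ≥0∞) ≤ ⨆ x ∈ Y i.succ, ⨆ y ∈ Y i.succ, (ρ x y : ℝ≥0∞) :=
      le_iSup₂_of_le x hx (le_iSup₂_of_le y hy le_rfl)
    exact_mod_cast h5.trans_lt (h4 i)

theorem exists_cover {X : Type u} [MeasurableSpace X] {μ : Measure X} [IsProbabilityMeasure μ]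
    {ρ : X → X → ℝ≥0} {ε : ℝ≥0} (h : epsEntropy μ ρ ε < ⊤) :
    ∃ k, 0 < k ∧ Cover μ (fun x y => (ρ x y : ℝ)) ε k := by
  unfold epsEntropy at h
  simp only [iInf_lt_iff] at h
  obtain ⟨k, hk, hY, -⟩ := h
  exact ⟨k, hk, cover_of_lt hY⟩

theorem le_epsEntropy {X : Type u} [MeasurableSpace X] {μ : Measure X} [IsProbabilityMeasure μ]
    {ρ : X → X → ℝ≥0} {ε : ℝ≥0} {c : ℝ≥0∞}
    (h : ∀ k, 0 < k → Cover μ (fun x y => (ρ x y : ℝ)) ε k → c ≤ ENNReal.ofReal (Real.logb 2 k)) :
    c ≤ epsEntropy μ ρ ε :=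
  le_iInf fun k => le_iInf fun hk => le_iInf fun hY => h k hk (cover_of_lt hY)

/-- Freeness and generation give a scale at which `g a b` and `g b a` act differently. -/
theorem exists_scale {G : Type} [Group G] [Countable G] {X : Type u} [MeasurableSpace X]
    {μ : Measure X} [IsProbabilityMeasure μ] [MulAction G X] [SMulInvariantMeasure G X μ]
    (hfree : ∀ g : G, g ≠ 1 → μ {x | g • x = x} = 0) {ρ : X → X → ℝ≥0}
    (hgen : ∃ X' : Set X, μ X'ᶜ = 0 ∧
      ∀ x ∈ X', ∀ y ∈ X', x ≠ y → ∃ g : G, 0 < ρ (g • x) (g • y))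
    {p q : G} (hpq : p ≠ q) :
    ∃ (g : G) (r : ℝ), 0 < r ∧ 0 < μ.real {x | r ≤ (ρ ((g * p) • x) ((g * q) • x) : ℝ)} := by
  obtain ⟨X', hX', hgen⟩ := hgen
  by_contra hcon
  push Not at hcon
  have hnull : ∀ (w : G × ℕ),
      μ {x | 1 / ((w.2 : ℝ) + 1) ≤ (ρ ((w.1 * p) • x) ((w.1 * q) • x) : ℝ)} = 0 := by
    intro w
    have := hcon w.1 _ (Nat.one_div_pos_of_nat (n := w.2))
    exact (measureReal_eq_zero_iff).1 (le_antisymm this measureReal_nonneg)
  have hne : q⁻¹ * p ≠ 1 := fun h => hpq (inv_mul_eq_one.1 h).symm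
  have hsub : (univ : Set X) ⊆ ((p • ·) ⁻¹' X'ᶜ ∪ (q • ·) ⁻¹' X'ᶜ) ∪ ({x | (q⁻¹ * p) • x = x} ∪
      ⋃ w : G × ℕ, {x | 1 / ((w.2 : ℝ) + 1) ≤ (ρ ((w.1 * p) • x) ((w.1 * q) • x) : ℝ)}) := by
    intro x _
    by_cases h1 : p • x ∈ X'
    · by_cases h2 : q • x ∈ X'
      · by_cases h3 : p • x = q • x
        · refine Or.inr (Or.inl ?_)
          change (q⁻¹ * p) • x = x
          rw [mul_smul, h3, inv_smul_smul]
        · obtain ⟨g, hg⟩ := hgen _ h1 _ h2 h3
          obtain ⟨m, hm⟩ := exists_nat_one_div_lt (show (0 : ℝ) < ρ (g • p • x) (g • q • x) from hg)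
          refine Or.inr (Or.inr (mem_iUnion.2 ⟨(g, m), ?_⟩))
          simpa only [mem_ofPred_eq, mul_smul] using hm.le
      · exact Or.inl (Or.inr h2)
    · exact Or.inl (Or.inl h1)
  have h0 : μ univ = 0 := measure_mono_null hsub (measure_union_null
    (measure_union_null (measure_preimage_smul_null hX' p) (measure_preimage_smul_null hX' q))
    (measure_union_null (hfree _ hne) (measure_iUnion_null hnull)))
  simp at h0

theorem chain_bound {G : Type} [Group G] {X : Type u} [MeasurableSpace X]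
    {μ : Measure X} [IsProbabilityMeasure μ] [MulAction G X] [SMulInvariantMeasure G X μ]
    {ρ : X → X → ℝ} (hs : ∀ x y, ρ x y = ρ y x) (ht : ∀ x y z, ρ x z ≤ ρ x y + ρ y z)
    {a b c g h : G} (hcomm : a * ((g * h⁻¹)⁻¹ * b * (g * h⁻¹)) = ((g * h⁻¹)⁻¹ * b * (g * h⁻¹)) * a)
    {r θ : ℝ}
    (h1 : μ.real {x | r ≤ ρ ((c * g) • x) ((c * h) • x)} ≤ θ)
    (h2 : μ.real {x | r ≤ ρ ((c * a * g) • x) ((c * a * h) • x)} ≤ θ)
    (h3 : μ.real {x | r ≤ ρ ((c * b * g) • x) ((c * b * h) • x)} ≤ θ)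
    (h4 : μ.real {x | r ≤ ρ ((c * a * b * g) • x) ((c * a * b * h) • x)} ≤ θ) :
    μ.real {x | 4 * r ≤ ρ ((c * (a * b)) • x) ((c * (b * a)) • x)} ≤ 4 * θ := by
  have inv : ∀ (p q k : G), μ.real {x | r ≤ ρ ((p * k) • x) ((q * k) • x)} =
      μ.real {x | r ≤ ρ (p • x) (q • x)} := by
    intro p q k
    have := measure_preimage_smul μ k {x | r ≤ ρ (p • x) (q • x)}
    simp only [Measure.real, ← this, preimage_ofPred_eq, mul_smul]
  set w := g * h⁻¹ with hw
  rw [← inv _ _ (g⁻¹ * b * w * a)] at h1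
  rw [← inv _ _ (g⁻¹ * b * w)] at h2
  rw [← inv _ _ (h⁻¹ * a)] at h3
  rw [← inv _ _ h⁻¹] at h4
  have e1 : c * g * (g⁻¹ * b * w * a) = c * b * w * a := by group
  have e1' : c * h * (g⁻¹ * b * w * a) = c * (w⁻¹ * b * w * a) := by rw [hw]; group
  have e2 : c * a * g * (g⁻¹ * b * w) = c * a * b * w := by group
  have e2' : c * a * h * (g⁻¹ * b * w) = c * (w⁻¹ * b * w * a) := by
    rw [← hcomm, hw]; group
  have e3 : c * b * g * (h⁻¹ * a) = c * b * w * a := by rw [hw]; group
  have e3' : c * b * h * (h⁻¹ * a) = c * (b * a) := by group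
  have e4 : c * a * b * g * h⁻¹ = c * a * b * w := by rw [hw]; group
  have e4' : c * a * b * h * h⁻¹ = c * (a * b) := by group
  rw [e1, e1'] at h1
  rw [e2, e2'] at h2
  rw [e3, e3'] at h3
  rw [e4, e4'] at h4
  have hsub : {x | 4 * r ≤ ρ ((c * (a * b)) • x) ((c * (b * a)) • x)} ⊆
      ({x | r ≤ ρ ((c * b * w * a) • x) ((c * (w⁻¹ * b * w * a)) • x)} ∪
        {x | r ≤ ρ ((c * a * b * w) • x) ((c * (w⁻¹ * b * w * a)) • x)}) ∪
      ({x | r ≤ ρ ((c * b * w * a) • x) ((c * (b * a)) • x)} ∪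
        {x | r ≤ ρ ((c * a * b * w) • x) ((c * (a * b)) • x)}) := by
    intro x hx
    by_contra hcon
    simp only [mem_union, mem_ofPred_eq, not_or, not_le] at hcon hx
    obtain ⟨⟨k1, k2⟩, k3, k4⟩ := hcon
    have t1 := ht ((c * (a * b)) • x) ((c * a * b * w) • x) ((c * (b * a)) • x)
    have t2 := ht ((c * a * b * w) • x) ((c * (w⁻¹ * b * w * a)) • x) ((c * (b * a)) • x)
    have t3 := ht ((c * (w⁻¹ * b * w * a)) • x) ((c * b * w * a) • x) ((c * (b * a)) • x)
    have s1 := hs ((c * (a * b)) • x) ((c * a * b * w) • x)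
    have s2 := hs ((c * (w⁻¹ * b * w * a)) • x) ((c * b * w * a) • x)
    linarith
  refine (measureReal_mono hsub).trans ((measureReal_union_le _ _).trans ?_)
  refine (add_le_add (measureReal_union_le _ _) (measureReal_union_le _ _)).trans ?_
  linarith

theorem key_count {G : Type} [Group G] [Countable G] (π : G →* Multiplicative ℤ) {t a b : G}
    (hπt : π t = Multiplicative.ofAdd 1) (hab : a * b ≠ b * a)
    (hcomm : ∀ w, π w ≠ 1 → a * (w⁻¹ * b * w) = (w⁻¹ * b * w) * a)
    {X : Type u} [MeasurableSpace X] {μ : Measure X} [IsProbabilityMeasure μ] [MulAction G X]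
    (hpres : ∀ g : G, MeasurePreserving (fun x : X => g • x) μ μ)
    (hfree : ∀ g : G, g ≠ 1 → μ {x | g • x = x} = 0) {ρ : X → X → ℝ≥0}
    (hρ : IsGoodSemimetric G μ ρ) :
    ∃ (δ : ℝ≥0) (M : ℕ) (S : Fin 4 → G), 0 < δ ∧ 0 < M ∧ ∀ (F : Finset G) (K : ℕ), F.Nonempty →
      Cover μ (fun x y => (((∑ g ∈ F, ρ (g • x) (g • y)) / F.card : ℝ≥0) : ℝ)) δ K →
      (∀ l, 16 * outCard F (S l) ≤ F.card) → F.card ≤ 2 * M ^ (4 * K) * outCard F t := by
  classical
  obtain ⟨-, hs, ht, -, hadm, hgen⟩ := hρ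
  have : SMulInvariantMeasure G X μ :=
    ⟨fun g s hs => (hpres g).measure_preimage hs.nullMeasurableSet⟩
  obtain ⟨c, r, hr, hη⟩ := exists_scale hfree hgen hab
  set η := μ.real {x | r ≤ (ρ ((c * (a * b)) • x) ((c * (b * a)) • x) : ℝ)} with hηdef
  obtain ⟨s, hs0, hs1, hsr, hsη⟩ : ∃ s : ℝ, 0 < s ∧ s ≤ 1 ∧ 20 * s ≤ r ∧ 388 * s < η :=
    ⟨min 1 (min (r / 20) (η / 400)), by positivity, min_le_left _ _,
      by have := (min_le_right 1 (min (r / 20) (η / 400))).trans (min_le_left _ _); linarith,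
      by have := (min_le_right 1 (min (r / 20) (η / 400))).trans (min_le_right _ _); linarith⟩
  obtain ⟨M, hM, hcov⟩ := exists_cover (hadm ⟨s, hs0.le⟩ hs0)
  have hs' : ∀ x y, (ρ x y : ℝ) = ρ y x := fun x y => by rw [hs]
  have ht' : ∀ x y z, (ρ x z : ℝ) ≤ ρ x y + ρ y z := fun x y z => by exact_mod_cast ht x y z
  let S : Fin 4 → G := ![c, c * a, c * b, c * a * b]
  refine ⟨⟨s ^ 2, by positivity⟩, M, S, show (0 : ℝ) < s ^ 2 by positivity, hM, ?_⟩
  intro F K hF hK hout
  obtain ⟨col, Bad, hBad, hcol⟩ := exists_colouring hpres (fun x y => (ρ x y).2) hs' ht' hs0 hs1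
    hM hcov F hF (K := K) (by
      have hK' : Cover μ (fun x y => (((∑ g ∈ F, ρ (g • x) (g • y)) / F.card : ℝ≥0) : ℝ))
        (s ^ 2) K := hK
      simpa using hK')
  let Good : Finset G := F.filter fun g => ∀ l, S l * g ∈ F ∧ S l * g ∉ Bad
  have hGood : F.card ≤ 2 * Good.card := by
    have hsub : F ⊆ Good ∪ Finset.univ.biUnion fun l : Fin 4 =>
        (F.filter fun g => S l * g ∉ F) ∪ F.filter fun g => S l * g ∈ Bad := by
      intro g hg
      by_cases h : g ∈ Good
      · exact Finset.mem_union_left _ h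
      · refine Finset.mem_union_right _ ?_
        simp only [Good, Finset.mem_filter, hg, true_and, not_forall, not_and, not_not] at h
        obtain ⟨l, hl⟩ := h
        simp only [Finset.mem_biUnion, Finset.mem_univ, true_and, Finset.mem_union,
          Finset.mem_filter, hg]
        refine ⟨l, ?_⟩
        by_cases h' : S l * g ∈ F
        · exact Or.inr (hl h')
        · exact Or.inl h'
    have hl : ∀ l : Fin 4, 8 * ((F.filter fun g => S l * g ∉ F) ∪
        F.filter fun g => S l * g ∈ Bad).card ≤ F.card := by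
      intro l
      have k1 : (F.filter fun g => S l * g ∈ Bad).card ≤ Bad.card :=
        Finset.card_le_card_of_injOn (S l * ·) (fun g hg => (Finset.mem_filter.1 hg).2)
          (mul_right_injective _).injOn
      have k2 := Finset.card_union_le (F.filter fun g => S l * g ∉ F)
        (F.filter fun g => S l * g ∈ Bad)
      have k3 : 16 * (F.filter fun g => S l * g ∉ F).card ≤ F.card := hout l
      omega
    have k4 := (Finset.card_le_card hsub).trans (Finset.card_union_le _ _)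
    have k5 := Finset.card_biUnion_le (s := (Finset.univ : Finset (Fin 4))) (t := fun l : Fin 4 =>
        (F.filter fun g => S l * g ∉ F) ∪ F.filter fun g => S l * g ∈ Bad)
    rw [Fin.sum_univ_four] at k5
    have := hl 0
    have := hl 1
    have := hl 2
    have := hl 3
    omega
  have hsame : ∀ g ∈ Good, ∀ h ∈ Good, (fun l => col (S l * g)) = (fun l => col (S l * h)) →
      π g = π h := by
    intro g hg h hh hc
    by_contra hne
    have hg' := (Finset.mem_filter.1 hg).2
    have hh' := (Finset.mem_filter.1 hh).2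
    have hb := fun l => hcol _ (hg' l).1 (hg' l).2 _ (hh' l).1 (hh' l).2 (congrFun hc l)
    have hw : π (g * h⁻¹) ≠ 1 := by
      rw [map_mul, map_inv]
      exact fun h' => hne (mul_inv_eq_one.1 h')
    have := chain_bound (μ := μ) (c := c) hs' ht' (hcomm _ hw) (hb 0) (hb 1) (hb 2) (hb 3)
    have h2 : η ≤ μ.real {x | 4 * (5 * s) ≤ (ρ ((c * (a * b)) • x) ((c * (b * a)) • x) : ℝ)} :=
      measureReal_mono fun x hx => by
        simp only [mem_ofPred_eq] at hx ⊢
        linarith
    linarith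
  have hcount : Good.card ≤ outCard F t * M ^ (4 * K) := by
    have := Finset.card_le_mul_card_image_of_maps_to (s := Good)
      (t := (Finset.univ : Finset (Fin 4 → Fin K → Fin M))) (f := fun g l => col (S l * g))
      (fun _ _ => Finset.mem_univ _) (outCard F t) (by
        intro κ _
        rcases (Good.filter fun g => (fun l => col (S l * g)) = κ).eq_empty_or_nonempty with
          h | ⟨g₀, hg₀⟩
        · simp only [h, Finset.card_empty, Nat.zero_le]
        · refine le_trans (Finset.card_le_card ?_) (card_fibre_le π hπt F (π g₀))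
          intro g hg
          rw [Finset.mem_filter] at hg hg₀ ⊢
          exact ⟨(Finset.mem_filter.1 hg.1).1, hsame g hg.1 g₀ hg₀.1 (hg.2.trans hg₀.2.symm)⟩)
    simpa [← pow_mul, mul_comm] using this
  calc F.card ≤ 2 * Good.card := hGood
    _ ≤ 2 * (outCard F t * M ^ (4 * K)) := by gcongr
    _ = 2 * M ^ (4 * K) * outCard F t := by ring

theorem gap_of_commuting {G : Type} [Group G] [Countable G] (π : G →* Multiplicative ℤ)
    {t a b : G} (hπt : π t = Multiplicative.ofAdd 1) (hab : a * b ≠ b * a)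
    (hcomm : ∀ w, π w ≠ 1 → a * (w⁻¹ * b * w) = (w⁻¹ * b * w) * a)
    {F : ℕ → Finset G} (hF : IsFolnerSeq F) :
    ∃ φ : ℕ → ℝ≥0, Tendsto φ atTop atTop ∧ IsUniformLowerBound.{u} G F φ := by
  classical
  let m : ℕ → ℕ := fun n =>
    Nat.findGreatest (fun j => 2 * j ^ (4 * j) * outCard (F n) t < (F n).card) n
  have hm : ∀ j, ∀ᶠ n in atTop, j ≤ m n ∧
      2 * m n ^ (4 * m n) * outCard (F n) t < (F n).card := by
    intro j
    filter_upwards [hF.eventually_mul_lt t (2 * j ^ (4 * j)), eventually_ge_atTop j] with n h1 h2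
    exact ⟨Nat.le_findGreatest h2 h1,
      Nat.findGreatest_spec (P := fun j => 2 * j ^ (4 * j) * outCard (F n) t < (F n).card) h2 h1⟩
  have hmt : Tendsto m atTop atTop := tendsto_atTop.2 fun j => (hm j).mono fun n h => h.1
  refine ⟨fun n => Real.toNNReal (Real.logb 2 (m n)), ?_, ?_⟩
  · exact Real.tendsto_toNNReal_atTop.comp ((Real.tendsto_logb_atTop one_lt_two).comp
      (tendsto_natCast_atTop_atTop.comp hmt))
  intro X _ _ μ _ _ hpres hfree ρ hρ ε _
  obtain ⟨δ, M, S, hδ, hM, hkey⟩ := key_count π hπt hab hcomm hpres hfree hρ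
  refine ⟨δ, hδ, lt_of_le_of_lt (limsup_le_of_le (h := ?_)) ENNReal.one_lt_top⟩
  have hS : ∀ᶠ n in atTop, ∀ l, 16 * outCard (F n) (S l) ≤ (F n).card :=
    eventually_all.2 fun l => (hF.eventually_mul_lt (S l) 16).mono fun n h => h.le
  filter_upwards [hS, hm M] with n h1 h2
  refine ENNReal.div_le_of_le_mul ?_
  rw [one_mul]
  refine le_epsEntropy fun K hK hcov => ?_
  have h3 := hkey (F n) K (hF.1 n) hcov h1
  have h4 : m n ≤ K := by
    by_contra hcon
    have h5 : M ^ (4 * K) ≤ m n ^ (4 * m n) :=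
      (Nat.pow_le_pow_left h2.1 _).trans (Nat.pow_le_pow_right (by omega) (by omega))
    have h6 : 2 * M ^ (4 * K) * outCard (F n) t ≤ 2 * m n ^ (4 * m n) * outCard (F n) t := by
      gcongr
    omega
  refine ENNReal.ofReal_le_ofReal ?_
  have h7 : (0 : ℝ) < m n := by exact_mod_cast (by omega : 0 < m n)
  exact Real.logb_le_logb_of_le one_lt_two h7 (by exact_mod_cast h4)

end Pool.Agent.MP_a6e297_an
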