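import Pool.Agent.MP_a6e297_an.Gap

/-! The lamplighter group: countability, a Folner sequence, and the gap. -/

namespace Pool.Agent.MP_a6e297_an

open MeasureTheory Set Filter Topology
open scoped ENNReal NNReal

universe u

variable {A : Type} [Group A]

/-- The projection to `ℤ`. -/
def proj (A : Type) [Group A] : Lamplighter A →* Multiplicative ℤ :=
  RegularWreathProduct.rightHom.comp (Lamplighter A).subtype

theorem proj_apply (g : Lamplighter A) : proj A g = g.1.right := rfl

/-- The shift by `q`. -/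
def shift (A : Type) [Group A] (q : ℤ) : Lamplighter A :=
  ⟨⟨1, Multiplicative.ofAdd q⟩, by
    change (Function.mulSupport (1 : Multiplicative ℤ → A)).Finite
    simp⟩

/-- The lamp `a` at the origin. -/
noncomputable def lamp (a : A) : Lamplighter A :=
  ⟨⟨Pi.mulSingle 1 a, 1⟩, by
    change (Function.mulSupport (Pi.mulSingle (1 : Multiplicative ℤ) a : Multiplicative ℤ → A)).Finite
    exact (finite_singleton _).subset Pi.mulSupport_mulSingle_subset⟩

theorem lamp_ne {a b : A} (h : a * b ≠ b * a) : lamp a * lamp b ≠ lamp b * lamp a := by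
  intro e
  have := congrArg (fun g : Lamplighter A => g.1.left 1) e
  simp [lamp] at this
  exact h this

theorem lamp_comm (a b : A) (w : Lamplighter A) (hw : proj A w ≠ 1) :
    lamp a * (w⁻¹ * lamp b * w) = (w⁻¹ * lamp b * w) * lamp a := by
  rw [proj_apply] at hw
  apply Subtype.ext
  ext x
  · by_cases hx : x = 1
    · subst hx
      simp [lamp, Pi.mulSingle_eq_of_ne hw]
    · simp [lamp, Pi.mulSingle_eq_of_ne hx]
  · simp [lamp]

/-- Elements with position in `[0, n]` and lamps within distance `L` of the position. -/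
def box (A : Type) [Group A] (L : ℕ) (q : ℤ) : Set (Lamplighter A) :=
  {g | g.1.right.toAdd = q ∧ ∀ x : Multiplicative ℤ, g.1.left x ≠ 1 → |x.toAdd - q| ≤ L}

theorem box_finite [Finite A] (L : ℕ) (q : ℤ) : (box A L q).Finite := by
  refine Set.Finite.of_finite_image
    (f := fun g (x : Icc (q - L) (q + L)) => g.1.left (Multiplicative.ofAdd x.1))
    (toFinite _) ?_
  intro g hg h hh e
  apply Subtype.ext
  ext x
  · by_cases hx : |x.toAdd - q| ≤ L
    · rw [abs_le] at hx
      exact congrFun e ⟨x.toAdd, by constructor <;> linarith [hx.1, hx.2]⟩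
    · have h1 : g.1.left x = 1 := by
        by_contra hc
        exact hx (hg.2 x hc)
      have h2 : h.1.left x = 1 := by
        by_contra hc
        exact hx (hh.2 x hc)
      rw [h1, h2]
  · exact hg.1.trans hh.1.symm

theorem exists_bound (g : Lamplighter A) :
    ∃ N : ℕ, ∀ x : Multiplicative ℤ, g.1.left x ≠ 1 → |x.toAdd| ≤ N := by
  have hfin : (Function.mulSupport g.1.left).Finite := g.2
  obtain ⟨N, hN⟩ := (hfin.image fun x => x.toAdd.natAbs).bddAbove
  refine ⟨N, fun x hx => ?_⟩
  have := hN ⟨x, hx, rfl⟩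
  simp only at this
  rw [← Int.natCast_natAbs]
  exact_mod_cast this

theorem countable_lamplighter [Finite A] : Countable (Lamplighter A) := by
  rw [← countable_univ_iff]
  refine (countable_iUnion fun w : ℕ × ℤ => (box_finite (A := A) w.1 w.2).countable).mono ?_
  intro g _
  obtain ⟨N, hN⟩ := exists_bound g
  refine mem_iUnion.2 ⟨(N + g.1.right.toAdd.natAbs, g.1.right.toAdd), rfl, fun x hx => ?_⟩
  have := hN x hx
  push_cast
  exact (abs_sub _ _).trans (by linarith)

theorem mul_mem_box {g h : Lamplighter A} {L : ℕ} {q : ℤ} (hh : h ∈ box A L q)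
    (hg : ∀ x : Multiplicative ℤ, g.1.left x ≠ 1 → |x.toAdd - (g.1.right.toAdd + q)| ≤ L) :
    g * h ∈ box A L (g.1.right.toAdd + q) := by
  refine ⟨by simp [hh.1], fun x hx => ?_⟩
  by_cases h1 : g.1.left x = 1
  · have h2 : h.1.left (g.1.right⁻¹ * x) ≠ 1 := by
      intro h2
      apply hx
      simp [h1, h2]
    have := hh.2 _ h2
    simp only [toAdd_mul, toAdd_inv] at this
    convert this using 2
    ring
  · exact hg x h1

theorem ncard_box_le [Finite A] (L : ℕ) (q q' : ℤ) : (box A L q).ncard ≤ (box A L q').ncard := by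
  refine Set.ncard_le_ncard_of_injOn (shift A (q' - q) * ·) ?_ (mul_right_injective _).injOn
    (box_finite L q')
  intro h hh
  have := mul_mem_box (g := shift A (q' - q)) hh (fun x hx => absurd rfl hx)
  simpa [shift] using this

/-- The Folner sets. -/
noncomputable def folner (A : Type) [Group A] [Finite A] (n : ℕ) : Finset (Lamplighter A) := by
  classical
  exact (Finset.Icc (0 : ℤ) n).biUnion fun q => (box_finite (A := A) (2 * n) q).toFinset

theorem mem_folner [Finite A] {n : ℕ} {g : Lamplighter A} :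
    g ∈ folner A n ↔ ∃ q : ℤ, (0 ≤ q ∧ q ≤ n) ∧ g ∈ box A (2 * n) q := by
  simp [folner]

theorem card_biUnion_box [Finite A] [DecidableEq (Lamplighter A)] (L : ℕ) (I : Finset ℤ) :
    (I.biUnion fun q => (box_finite (A := A) L q).toFinset).card =
      I.card * (box A L 0).ncard := by
  rw [Finset.card_biUnion]
  · rw [Finset.sum_congr rfl (g := fun _ => (box A L 0).ncard)]
    · simp
    · intro q _
      rw [← Set.ncard_eq_toFinset_card _ (box_finite L q)]
      exact le_antisymm (ncard_box_le L q 0) (ncard_box_le L 0 q)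
  · intro q _ q' _ hne
    rw [Function.onFun, Finset.disjoint_left]
    intro g hg hg'
    rw [Set.Finite.mem_toFinset] at hg hg'
    exact hne (hg.1.symm.trans hg'.1)

theorem card_folner [Finite A] (n : ℕ) :
    (folner A n).card = (n + 1) * (box A (2 * n) 0).ncard := by
  classical
  have := card_biUnion_box (A := A) (2 * n) (Finset.Icc (0 : ℤ) n)
  rw [Int.card_Icc] at this
  have e : ((n : ℤ) + 1 - 0).toNat = n + 1 := by omega
  rw [e] at this
  convert! this

theorem outCard_folner_le [Finite A] (g : Lamplighter A) {n : ℕ}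
    (hg : ∀ x : Multiplicative ℤ, g.1.left x ≠ 1 → |x.toAdd| ≤ n) :
    outCard (folner A n) g ≤ (2 * g.1.right.toAdd.natAbs) * (box A (2 * n) 0).ncard := by
  classical
  set p := g.1.right.toAdd with hp
  let I : Finset ℤ := Finset.Ico (0 : ℤ) p.natAbs ∪ Finset.Ioc ((n : ℤ) - p.natAbs) n
  have hI : I.card ≤ 2 * p.natAbs := by
    refine (Finset.card_union_le _ _).trans ?_
    rw [Int.card_Ico, Int.card_Ioc]
    omega
  refine le_trans ?_ (Nat.mul_le_mul_right _ hI)
  rw [← card_biUnion_box, outCard]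
  refine Finset.card_le_card fun h hh => ?_
  simp only [Finset.mem_filter] at hh
  obtain ⟨hin, hout⟩ := hh
  obtain ⟨q, hq, hh⟩ := mem_folner.1 hin
  rw [Finset.mem_biUnion]
  refine ⟨q, ?_, (Set.Finite.mem_toFinset _).2 hh⟩
  by_contra hq'
  simp only [I, Finset.mem_union, Finset.mem_Ico, Finset.mem_Ioc, not_or, not_and, not_lt,
    not_le] at hq'
  have h1 : 0 ≤ p + q ∧ p + q ≤ n := by omega
  refine hout (mem_folner.2 ⟨p + q, h1, mul_mem_box hh fun x hx => ?_⟩)
  have := hg x hx
  rw [abs_le] at this ⊢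
  push_cast
  constructor <;> linarith [this.1, this.2, h1.1, h1.2]

theorem ncard_symmDiff_le {G : Type*} [Group G] (F : Finset G) (g : G) :
    (symmDiff ((g * ·) '' (F : Set G)) (F : Set G)).ncard ≤ outCard F g + outCard F g⁻¹ := by
  classical
  have hsub : symmDiff ((g * ·) '' (F : Set G)) (F : Set G) ⊆
      (g * ·) '' (F.filter fun h => g * h ∉ F : Finset G) ∪
        (F.filter fun h => g⁻¹ * h ∉ F : Finset G) := by
    rintro x (⟨⟨h, hh, rfl⟩, hx⟩ | ⟨hx, hx'⟩)
    · exact Or.inl ⟨h, by simpa using ⟨hh, hx⟩, rfl⟩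
    · refine Or.inr ?_
      simp only [Finset.coe_filter, mem_ofPred_eq]
      exact ⟨hx, fun h => hx' ⟨_, h, by simp⟩⟩
  refine (Set.ncard_le_ncard hsub (toFinite _)).trans ((Set.ncard_union_le _ _).trans ?_)
  rw [Set.ncard_image_of_injective _ (mul_right_injective g), Set.ncard_coe_finset,
    Set.ncard_coe_finset]
  rfl

theorem isFolnerSeq_folner [Finite A] : IsFolnerSeq (folner A) := by
  have hpos : ∀ n, 0 < (box A (2 * n) 0).ncard := fun n =>
    (Set.ncard_pos (box_finite _ _)).2 ⟨1, rfl, fun x hx => absurd rfl hx⟩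
  refine ⟨fun n => Finset.card_pos.1 ?_, fun g => ?_⟩
  · rw [card_folner]
    exact Nat.mul_pos (Nat.succ_pos n) (hpos n)
  obtain ⟨N, hN⟩ := exists_bound g
  obtain ⟨N', hN'⟩ := exists_bound g⁻¹
  set C : ℕ := 2 * g.1.right.toAdd.natAbs + 2 * (g⁻¹).1.right.toAdd.natAbs with hC
  have hlim : Tendsto (fun n : ℕ => (C : ℝ) / ((n : ℝ) + 1)) atTop (𝓝 0) :=
    tendsto_const_nhds.div_atTop (tendsto_atTop_add_const_right _ _ tendsto_natCast_atTop_atTop)
  refine squeeze_zero' (Eventually.of_forall fun n => by positivity) ?_ hlim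
  filter_upwards [eventually_ge_atTop N, eventually_ge_atTop N'] with n h1 h2
  have k1 := outCard_folner_le g (n := n) fun x hx => (hN x hx).trans (by exact_mod_cast h1)
  have k2 := outCard_folner_le g⁻¹ (n := n) fun x hx => (hN' x hx).trans (by exact_mod_cast h2)
  have k3 := ncard_symmDiff_le (folner A n) g
  have k4 : (symmDiff ((g * ·) '' (folner A n : Set (Lamplighter A)))
      (folner A n : Set (Lamplighter A))).ncard ≤ C * (box A (2 * n) 0).ncard := by
    rw [hC, add_mul]
    omega
  have k5 : (0 : ℝ) < (box A (2 * n) 0).ncard := by exact_mod_cast hpos n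
  rw [card_folner]
  push_cast
  rw [div_le_div_iff₀ (by positivity) (by positivity)]
  have k6 : ((symmDiff ((g * ·) '' (folner A n : Set (Lamplighter A)))
      (folner A n : Set (Lamplighter A))).ncard : ℝ) ≤ C * (box A (2 * n) 0).ncard := by
    exact_mod_cast k4
  have k7 : (0 : ℝ) ≤ (n : ℝ) + 1 := by positivity
  nlinarith [mul_le_mul_of_nonneg_right k6 k7]

theorem lamplighter_gap (A : Type) [Group A] [Finite A] (hA : ∃ a b : A, a * b ≠ b * a) :
    (∃ F : ℕ → Finset (Lamplighter A), IsFolnerSeq F) ∧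
    ∀ F : ℕ → Finset (Lamplighter A), IsFolnerSeq F →
      ∃ φ : ℕ → ℝ≥0, Tendsto φ atTop atTop ∧ IsUniformLowerBound.{u} (Lamplighter A) F φ := by
  obtain ⟨a, b, hab⟩ := hA
  have := countable_lamplighter (A := A)
  exact ⟨⟨_, isFolnerSeq_folner⟩, fun F hF =>
    gap_of_commuting (proj A) (t := shift A 1) rfl (lamp_ne hab) (lamp_comm a b) hF⟩

end Pool.Agent.MP_a6e297_an
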